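import Pool.Agent.H606R2.MinRank.PolyT
import Pool.Agent.ER.Hard

/-!
# Padding of the variable matrix of a system

The variable matrix of `Pool.Agent.H606R2.MinRank.Mat` has minimum rank at most `2` for a solvable
system and at least `4` for an unsolvable one.  Adding `k` further rows and columns, which contain
an identity matrix, raises the rank by `k`.
-/

namespace Pool.Agent.R537.MR

open Pool.Agent.NPC Pool.Agent.NPC.ER Pool.Agent.H606R2.MinRank

/-- The entries of the padded matrix. -/
def entP (gs : List Gad) (i j : ℕ) : Entry :=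
  if i < dimOf gs then (if j < dimOf gs then ent gs i j else c0)
  else if i = j then c1 else c0

/-- The rows of the padded matrix. -/
def rowsP (k : ℕ) (gs : List Gad) : List (List Entry) :=
  (List.range (dimOf gs + k)).map fun i => (List.range (dimOf gs + k)).map fun j => entP gs i j

/-- The padded matrix. -/
def matP (k : ℕ) (gs : List Gad) : VarMatrix where
  rows := rowsP k gs
  square := by
    intro r hr
    unfold rowsP at hr ⊢
    rw [List.mem_map] at hr
    obtain ⟨i, _, rfl⟩ := hr
    simp

theorem length_rowsP (k : ℕ) (gs : List Gad) : (matP k gs).rows.length = dimOf gs + k := by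
  simp [matP, rowsP]

theorem matP_at (k : ℕ) (gs : List Gad) (a : ℕ → ℝ) (i j : Fin (matP k gs).rows.length) :
    (matP k gs).at a i j = (entP gs i j).eval a := by
  simp [VarMatrix.at, matP, rowsP]
  rfl

/-- If all the blocks `Z - X Y` vanish then, for suitable values of the odd variables, the matrix
factors through a two-dimensional space. -/
theorem exists_fac (gs : List Gad) (a : ℕ → ℝ)
    (hev : ∀ g ∈ gs, EvM g.1 ∧ EvM g.2.1 ∧ EvM g.2.2)
    (hz : ∀ g ∈ gs, evM a g.2.2 = evM a g.1 * evM a g.2.1) :
    ∃ a' : ℕ → ℝ, ∀ i < dimOf gs, ∀ j < dimOf gs, (ent gs i j).eval a' =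
      (ent gs i 0).eval a' * (ent gs 0 j).eval a' +
      (ent gs i 1).eval a' * (ent gs 1 j).eval a' := by
  set N := dimOf gs with hNdef
  have hN' : N = 2 * gs.length + 2 := rfl
  let a' : ℕ → ℝ := fun v => if v % 2 = 0 then a v else
    (ent gs (v / 2 / N) 0).eval a * (ent gs 0 (v / 2 % N)).eval a +
    (ent gs (v / 2 / N) 1).eval a * (ent gs 1 (v / 2 % N)).eval a
  have ha' : ∀ v, v % 2 = 0 → a' v = a v := fun v hv => if_pos hv
  have hget : ∀ g < gs.length, gs.getD g gdz ∈ gs := by
    intro g hg
    rw [List.getD_eq_getElem _ _ hg]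
    exact List.getElem_mem hg
  have hrow : ∀ i < N, ∀ k < 2, (ent gs i k).eval a' = (ent gs i k).eval a := by
    intro i hi k hk
    by_cases hi2 : i < 2
    · rw [ent_base gs a' hi2 hk, ent_base gs a hi2 hk]
    · obtain ⟨g, s, hs, rfl⟩ : ∃ g s, s < 2 ∧ i = 2 * g + 2 + s :=
        ⟨i / 2 - 1, i % 2, by omega, by omega⟩
      rw [ent_X gs hk hs]
      exact ((hev _ (hget g (by omega))).1 s k).eval ha'
  have hcol : ∀ j < N, ∀ k < 2, (ent gs k j).eval a' = (ent gs k j).eval a := by
    intro j hj k hk
    by_cases hj2 : j < 2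
    · rw [ent_base gs a' hk hj2, ent_base gs a hk hj2]
    · obtain ⟨g, s, hs, rfl⟩ : ∃ g s, s < 2 ∧ j = 2 * g + 2 + s :=
        ⟨j / 2 - 1, j % 2, by omega, by omega⟩
      rw [ent_Y gs hk hs]
      exact ((hev _ (hget g (by omega))).2.1 k s).eval ha'
  refine ⟨a', ?_⟩
  intro i hi j hj
  by_cases hi2 : i < 2
  · have h0 := ent_base gs a' hi2 (j := 0) (by omega)
    have h1 := ent_base gs a' hi2 (j := 1) (by omega)
    rw [h0, h1]
    have : i = 0 ∨ i = 1 := by omega
    rcases this with rfl | rfl <;> simp
  · by_cases hj2 : j < 2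
    · have h0 := ent_base gs a' (i := 0) (by omega) hj2
      have h1 := ent_base gs a' (i := 1) (by omega) hj2
      rw [h0, h1]
      have : j = 0 ∨ j = 1 := by omega
      rcases this with rfl | rfl <;> simp
    · obtain ⟨g, s, hs, rfl⟩ : ∃ g s, s < 2 ∧ i = 2 * g + 2 + s :=
        ⟨i / 2 - 1, i % 2, by omega, by omega⟩
      obtain ⟨h, t, ht, rfl⟩ : ∃ h t, t < 2 ∧ j = 2 * h + 2 + t :=
        ⟨j / 2 - 1, j % 2, by omega, by omega⟩
      rw [hrow _ hi 0 (by omega), hrow _ hi 1 (by omega), hcol _ hj 0 (by omega),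
        hcol _ hj 1 (by omega)]
      by_cases hgh : g = h
      · subst hgh
        have hg : g < gs.length := by omega
        rw [ent_Z gs hs ht, ent_X gs (j := 0) (by omega) hs, ent_X gs (j := 1) (by omega) hs,
          ent_Y gs (i := 0) (by omega) ht, ent_Y gs (i := 1) (by omega) ht,
          ((hev _ (hget g hg)).2.2 s t).eval ha']
        have := congrFun (congrFun (hz _ (hget g hg)) ⟨s, hs⟩) ⟨t, ht⟩
        rw [Matrix.mul_apply, Fin.sum_univ_two] at this
        exact this
      · have e : ent gs (2 * g + 2 + s) (2 * h + 2 + t) =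
            Entry.var (2 * ((2 * g + 2 + s) * N + (2 * h + 2 + t)) + 1) := by
          unfold ent
          rw [if_neg (by omega), if_neg (by omega), if_neg (by omega)]
        rw [e]
        change a' _ = _
        have e1 : (2 * ((2 * g + 2 + s) * N + (2 * h + 2 + t)) + 1) / 2 =
            (2 * g + 2 + s) * N + (2 * h + 2 + t) := by omega
        have e2 : ((2 * g + 2 + s) * N + (2 * h + 2 + t)) / N = 2 * g + 2 + s := by
          rw [Nat.add_comm, Nat.add_mul_div_right _ _ (by omega), Nat.div_eq_of_lt hj]
          omega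
        have e3 : ((2 * g + 2 + s) * N + (2 * h + 2 + t)) % N = 2 * h + 2 + t := by
          rw [Nat.add_comm, Nat.add_mul_mod_self_right, Nat.mod_eq_of_lt hj]
        simp only [a']
        rw [if_neg (by omega), e1, e2, e3]

/-- If all the blocks `Z - X Y` vanish then the rank of the padded matrix is at most `2 + k`, for
suitable values of the odd variables. -/
theorem exists_rank_le (k : ℕ) (gs : List Gad) (a : ℕ → ℝ)
    (hev : ∀ g ∈ gs, EvM g.1 ∧ EvM g.2.1 ∧ EvM g.2.2)
    (hz : ∀ g ∈ gs, evM a g.2.2 = evM a g.1 * evM a g.2.1) :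
    ∃ a' : ℕ → ℝ, ((matP k gs).at a').rank ≤ 2 + k := by
  obtain ⟨a', key⟩ := exists_fac gs a hev hz
  refine ⟨a', ?_⟩
  set N := dimOf gs with hN
  have hfac : (matP k gs).at a' =
      (Matrix.of fun (i : Fin (matP k gs).rows.length) (t : Fin 2 ⊕ Fin k) =>
        Sum.elim (fun t : Fin 2 => if (i : ℕ) < N then (ent gs i t).eval a' else 0)
          (fun t : Fin k => if (i : ℕ) = N + t then 1 else 0) t) *
      (Matrix.of fun (t : Fin 2 ⊕ Fin k) (j : Fin (matP k gs).rows.length) =>
        Sum.elim (fun t : Fin 2 => if (j : ℕ) < N then (ent gs t j).eval a' else 0)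
          (fun t : Fin k => if (j : ℕ) = N + t then 1 else 0) t) := by
    ext i j
    have hi : (i : ℕ) < N + k := lt_of_lt_of_eq i.2 (length_rowsP k gs)
    have hj : (j : ℕ) < N + k := lt_of_lt_of_eq j.2 (length_rowsP k gs)
    rw [matP_at, Matrix.mul_apply, Fintype.sum_sum_type, Fin.sum_univ_two]
    simp only [Matrix.of_apply, Sum.elim_inl, Sum.elim_inr]
    unfold entP
    rw [← hN]
    by_cases h1 : (i : ℕ) < N
    · have h0 : ∀ t : Fin k, ¬ ((i : ℕ) = N + t) := fun t => by omega
      by_cases h2 : (j : ℕ) < N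
      · simp only [h1, h2, if_true, h0, if_false, zero_mul, Finset.sum_const_zero, add_zero]
        exact key i h1 j h2
      · simp only [h1, h2, if_true, h0, if_false, zero_mul, mul_zero, Finset.sum_const_zero,
          add_zero]
        simp [c0, Entry.eval]
    · by_cases h2 : (j : ℕ) < N
      · have h0 : ∀ t : Fin k, ¬ ((j : ℕ) = N + t) := fun t => by omega
        have h3 : ¬ ((i : ℕ) = j) := by omega
        simp only [h1, h2, if_true, h0, if_false, zero_mul, mul_zero, Finset.sum_const_zero,
          add_zero, h3]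
        simp [c0, Entry.eval]
      · simp only [h1, h2, if_false, zero_mul, add_zero, zero_add]
        obtain ⟨t, ht⟩ : ∃ t : Fin k, (i : ℕ) = N + t := ⟨⟨i - N, by omega⟩, by simp; omega⟩
        rw [Finset.sum_eq_single t]
        · by_cases h3 : (i : ℕ) = j
          · have h4 : (j : ℕ) = N + t := by omega
            simp [h3, h4, c1, Entry.eval]
          · have h4 : ¬ ((j : ℕ) = N + t) := by omega
            simp [h3, h4, c0, Entry.eval]
        · intro s _ hs
          have : ¬ ((i : ℕ) = N + s) := fun h => hs (Fin.ext (by omega))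
          simp [this]
        · intro h
          exact absurd (Finset.mem_univ t) h
  rw [hfac]
  refine (Matrix.rank_mul_le_left _ _).trans ((Matrix.rank_le_card_width _).trans ?_)
  simp

/-- If a block `Z - X Y` is invertible then the rank of the padded matrix is at least `4 + k`. -/
theorem le_rank (k : ℕ) (gs : List Gad) (a : ℕ → ℝ) (g : ℕ) (hg : g < gs.length)
    (hdet : (evM a (gs.getD g gdz).2.2 -
      evM a (gs.getD g gdz).1 * evM a (gs.getD g gdz).2.1).det ≠ 0) :
    4 + k ≤ ((matP k gs).at a).rank := by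
  have hN : (matP k gs).rows.length = 2 * gs.length + 2 + k := length_rowsP k gs
  have hD : dimOf gs = 2 * gs.length + 2 := rfl
  let r : (Fin 2 ⊕ Fin 2) ⊕ Fin k → Fin (matP k gs).rows.length :=
    Sum.elim (Sum.elim (fun i => ⟨i, by omega⟩) (fun i => ⟨2 * g + 2 + i, by omega⟩))
      (fun i => ⟨2 * gs.length + 2 + i, by omega⟩)
  have key : ((matP k gs).at a).submatrix r r = Matrix.fromBlocks (Matrix.fromBlocks 1
      (evM a (gs.getD g gdz).2.1) (evM a (gs.getD g gdz).1) (evM a (gs.getD g gdz).2.2))
      0 0 1 := by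
    ext i j
    rcases i with (i | i) | i <;> rcases j with (j | j) | j
    · simp only [Matrix.submatrix_apply, matP_at, Matrix.fromBlocks_apply₁₁]
      change (entP gs i j).eval a = _
      unfold entP
      rw [if_pos (by omega), if_pos (by omega), ent_base gs a i.2 j.2, Matrix.one_apply]
      simp [Fin.ext_iff]
    · simp only [Matrix.submatrix_apply, matP_at, Matrix.fromBlocks_apply₁₁,
        Matrix.fromBlocks_apply₁₂]
      change (entP gs i (2 * g + 2 + j)).eval a = _
      unfold entP
      rw [if_pos (by omega), if_pos (by omega), ent_Y gs i.2 j.2]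
      rfl
    · simp only [Matrix.submatrix_apply, matP_at, Matrix.fromBlocks_apply₁₂]
      change (entP gs i (2 * gs.length + 2 + j)).eval a = _
      unfold entP
      rw [if_pos (by omega), if_neg (by omega)]
      simp [c0, Entry.eval]
    · simp only [Matrix.submatrix_apply, matP_at, Matrix.fromBlocks_apply₁₁,
        Matrix.fromBlocks_apply₂₁]
      change (entP gs (2 * g + 2 + i) j).eval a = _
      unfold entP
      rw [if_pos (by omega), if_pos (by omega), ent_X gs j.2 i.2]
      rfl
    · simp only [Matrix.submatrix_apply, matP_at, Matrix.fromBlocks_apply₁₁,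
        Matrix.fromBlocks_apply₂₂]
      change (entP gs (2 * g + 2 + i) (2 * g + 2 + j)).eval a = _
      unfold entP
      rw [if_pos (by omega), if_pos (by omega), ent_Z gs i.2 j.2]
      rfl
    · simp only [Matrix.submatrix_apply, matP_at, Matrix.fromBlocks_apply₁₂]
      change (entP gs (2 * g + 2 + i) (2 * gs.length + 2 + j)).eval a = _
      unfold entP
      rw [if_pos (by omega), if_neg (by omega)]
      simp [c0, Entry.eval]
    · simp only [Matrix.submatrix_apply, matP_at, Matrix.fromBlocks_apply₂₁]
      change (entP gs (2 * gs.length + 2 + i) j).eval a = _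
      unfold entP
      rw [if_neg (by omega), if_neg (by omega)]
      simp [c0, Entry.eval]
    · simp only [Matrix.submatrix_apply, matP_at, Matrix.fromBlocks_apply₂₁]
      change (entP gs (2 * gs.length + 2 + i) (2 * g + 2 + j)).eval a = _
      unfold entP
      rw [if_neg (by omega), if_neg (by omega)]
      simp [c0, Entry.eval]
    · simp only [Matrix.submatrix_apply, matP_at, Matrix.fromBlocks_apply₂₂, Matrix.one_apply]
      change (entP gs (2 * gs.length + 2 + i) (2 * gs.length + 2 + j)).eval a = _
      unfold entP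
      rw [if_neg (by omega)]
      by_cases h : i = j
      · subst h
        simp [c1, Entry.eval]
      · have : ¬ ((2 * gs.length + 2 + (i : ℕ)) = 2 * gs.length + 2 + j) := fun h' =>
          h (Fin.ext (by omega))
        rw [if_neg this, if_neg h]
        simp [c0, Entry.eval]
  have h1 : (((matP k gs).at a).submatrix r r).rank = 4 + k := by
    rw [Matrix.rank_of_det_ne_zero]
    · simp
    · rw [key, Matrix.det_fromBlocks_zero₂₁, Matrix.det_one, mul_one,
        Matrix.det_fromBlocks_one₁₁]
      exact hdet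
  rw [← h1]
  exact Matrix.rank_submatrix_le _ _ _

/-- The constraint in the format of `MinRank`. -/
def conv (c : ER.Con) : H606R2.MinRank.Con :=
  if c.code.1 = 0 then (2, c.code.2.1, 0, 0)
  else if c.code.1 = 1 then (0, c.code.2) else (1, c.code.2)

theorem sat_conv (x : ℕ → ℝ) (c : ER.Con) :
    H606R2.MinRank.Sat x (conv c) ↔ c.Holds x := by
  cases c <;> simp [conv, H606R2.MinRank.Sat, ER.Con.code, ER.Con.Holds]

/-- The padded matrix of a system of constraints. -/
def matS (k : ℕ) (S : List ER.Con) : VarMatrix := matP k ((S.map conv).flatMap gads)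

theorem sat_iff (k : ℕ) (S : List ER.Con) :
    ER.Sat S ↔ ∃ a : ℕ → ℝ, ((matS k S).at a).rank ≤ 2 + k := by
  constructor
  · rintro ⟨x, hx⟩
    let a : ℕ → ℝ := fun v => if v % 4 = 0 then x (v / 4) else - x (v / 4)
    have hp : ∀ v, a (4 * v) = x v := by
      intro v
      simp only [a]
      rw [if_pos (by omega)]
      congr 1
      omega
    have hn : ∀ v, a (4 * v + 2) = - x v := by
      intro v
      simp only [a]
      rw [if_neg (by omega)]
      congr 2
      omega
    refine exists_rank_le k _ a (fun g hg => ?_) (fun g hg => ?_)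
    · rw [List.mem_flatMap] at hg
      obtain ⟨c, _, hg⟩ := hg
      exact evens c g hg
    · rw [List.mem_flatMap] at hg
      obtain ⟨c, hc, hg⟩ := hg
      rw [List.mem_map] at hc
      obtain ⟨c', hc', rfl⟩ := hc
      exact gads_of_sat hp hn ((sat_conv x c').2 (hx c' hc')) g hg
  · rintro ⟨a, ha⟩
    refine ⟨fun v => a (4 * v), fun c hc => (sat_conv _ c).1 (sat_of_gads fun g hg => ?_)⟩
    by_contra hdet
    have hmem : g ∈ (S.map conv).flatMap gads :=
      List.mem_flatMap.2 ⟨conv c, List.mem_map_of_mem hc, hg⟩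
    obtain ⟨i, hi, e⟩ := List.getElem_of_mem hmem
    have := le_rank k ((S.map conv).flatMap gads) a i hi (by
      rw [List.getD_eq_getElem _ _ hi, e]
      exact hdet)
    have h2 : 4 + k ≤ ((matS k S).at a).rank := this
    omega

end Pool.Agent.R537.MR

namespace Pool.Agent.NPC.R537MR

open Pool.Agent.NPC Pool.Agent.NPC.ER Pool.Agent.H606R2.MinRank Pool.Agent.R537.MR
open Pool.Agent.NPC.H606MinRank

theorem poly_entP {α : Type} [TEnc α] {gs : α → List Gad} {i j : α → ℕ} (hgs : Poly gs)
    (hi : Poly i) (hj : Poly j) : Poly (fun x => entP (gs x) (i x) (j x)) := by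
  have h2 : Poly (fun _ : α => 2) := Poly.const 2
  have hdim : Poly (fun x => dimOf (gs x)) := Poly.add (Poly.mul h2 (Poly.length hgs)) h2
  exact Poly.ite (Poly.decide_lt hi hdim) (Poly.ite (Poly.decide_lt hj hdim)
    (poly_ent hgs hi hj) (Poly.const c0)) (Poly.ite (Poly.decide_eq hi hj) (Poly.const c1)
    (Poly.const c0))

theorem poly_rowsP (k : ℕ) : Poly (rowsP k) := by
  have hU : UPoly (fun gs : List Gad => dimOf gs + k) :=
    UPoly.add (UPoly.add (UPoly.mul (UPoly.const 2) (UPoly.length Poly.id)) (UPoly.const 2))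
      (UPoly.const k)
  refine Poly.map (F := fun (gs : List Gad) i =>
    (List.range (dimOf gs + k)).map fun j => entP gs i j) hU.range ?_
  refine Poly.map (F := fun (p : List Gad × ℕ) j => entP p.1 p.2 j)
    (hU.comp (Poly.fst Poly.id)).range ?_
  exact poly_entP (Poly.fst (Poly.fst Poly.id)) (Poly.snd (Poly.fst Poly.id)) (Poly.snd Poly.id)

theorem poly_conv : Poly conv := by
  have h0 : Poly (fun c : ER.Con => c.code) := poly_con_code Poly.id
  exact Poly.ite (Poly.decide_eq (Poly.fst h0) (Poly.const 0))
    (Poly.pair (Poly.const 2) (Poly.pair (Poly.fst (Poly.snd h0)) (Poly.const (0, 0))))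
    (Poly.ite (Poly.decide_eq (Poly.fst h0) (Poly.const 1))
      (Poly.pair (Poly.const 0) (Poly.snd h0)) (Poly.pair (Poly.const 1) (Poly.snd h0)))

theorem poly_matS (k : ℕ) : Poly (matS k) := by
  have h1 : Poly (fun S : List ER.Con => rowsP k ((S.map conv).flatMap gads)) := by
    refine (poly_rowsP k).comp (Poly.flatMap (F := fun _ c => gads c)
      (Poly.map (F := fun _ c => conv c) Poly.id (poly_conv.comp (Poly.snd Poly.id))) ?_)
    exact poly_gads.comp (Poly.snd Poly.id)
  exact Poly.of_toT (h1.toT'.congr fun _ => rfl)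

end Pool.Agent.NPC.R537MR
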